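import Mathlib
import Pool.Agent.X190.UH.Pair

/-!
# Arens–Michael envelopes of affine Hopf algebras (MP_e2f694_an, Q1)

Negative answer. `IsEnvelope ι` says that `ι : A → B` is the Arens–Michael envelope of `A`.
-/

universe u v

open TensorProduct

namespace Pool.Agent.Results.MP_e2f694_an.SameEnvelope

open X190.UH

/-- The Arens–Michael envelope of `H` is the counit `H → ℂ`. -/
def TrivialEnvelope (H : Type v) [Ring H] [HopfAlgebra ℂ H] : Prop :=
  IsEnvelope (Bialgebra.counitAlgHom ℂ H)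

/-- There is a surjective bialgebra morphism `π : G → H` such that for each Arens–Michael
envelope `ι : H → B` the composition `ι ∘ π` is the Arens–Michael envelope of `G`; and if `ι` is
injective then `G` and `H` are not isomorphic as algebras. -/
def SameEnv (G : Type v) (H : Type v) [Ring G] [HopfAlgebra ℂ G] [Ring H] [HopfAlgebra ℂ H] :
    Prop :=
  ∃ π : G →ₐc[ℂ] H, Function.Surjective π ∧
    ∀ (B : Type u) [Ring B] [Algebra ℂ B] [UniformSpace B] [IsUniformAddGroup B]
      (ι : H →ₐ[ℂ] B), IsEnvelope ι →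
        IsEnvelope (ι.comp (π : G →ₐ[ℂ] H)) ∧ (Function.Injective ι → ¬ Nonempty (G ≃ₐ[ℂ] H))

/-- (1) There are affine Hopf algebras `H₁`, `H₂` over `ℂ`, not isomorphic even as algebras, for
both of which the counit is the Arens–Michael envelope.
(2) There is an affine Hopf algebra `K` such that for every affine Hopf algebra `H` the Hopf
algebra `H ⊗ K` is affine and has the same Arens–Michael envelope as `H`. -/
theorem result :
    (∃ (H₁ H₂ : Type) (_ : Ring H₁) (_ : Ring H₂) (_ : HopfAlgebra ℂ H₁)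
      (_ : HopfAlgebra ℂ H₂), Algebra.FiniteType ℂ H₁ ∧ Algebra.FiniteType ℂ H₂ ∧
        ¬ Nonempty (H₁ ≃ₐ[ℂ] H₂) ∧ TrivialEnvelope H₁ ∧ TrivialEnvelope H₂) ∧
    (∃ (K : Type) (_ : Ring K) (_ : HopfAlgebra ℂ K), Algebra.FiniteType ℂ K ∧
      ∀ (H : Type v) [Ring H] [HopfAlgebra ℂ H], Algebra.FiniteType ℂ H →
        Algebra.FiniteType ℂ (H ⊗[ℂ] K) ∧ SameEnv.{u, v} (H ⊗[ℂ] K) H) := by
  refine ⟨⟨ℂ, UW, inferInstance, inferInstance, inferInstance, inferInstance, inferInstance,
    finiteType, not_iso_complex, ?_, ?_⟩, ⟨UW, inferInstance, inferInstance, finiteType, ?_⟩⟩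
  · have : (Bialgebra.counitAlgHom ℂ ℂ : ℂ →ₐ[ℂ] ℂ) = AlgHom.id ℂ ℂ := by
      ext
    unfold TrivialEnvelope
    rw [this]
    exact isEnvelope_id
  · exact isEnvelope_counit
  · intro H _ _ hf
    refine ⟨finiteType_tensor (hf := hf), piHom H, ?_, ?_⟩
    · intro a
      refine ⟨a ⊗ₜ[ℂ] (1 : UW), ?_⟩
      have := AlgHom.congr_fun (piHom_eq (H := H)) (a ⊗ₜ[ℂ] (1 : UW))
      rw [proj_left] at this
      exact this
    · intro B _ _ _ _ ι hι
      rw [piHom_eq]
      exact ⟨isEnvelope_tensor hι, fun hinj => not_iso_tensor hι hinj⟩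

end Pool.Agent.Results.MP_e2f694_an.SameEnvelope
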